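import Pool.Agent.H.MP_019d96_al.Defs

namespace Pool.Agent.H.MP_019d96_al

def u (n : ℕ) : ℕ := 48 * 8 ^ n * n + 1
def k (n : ℕ) : ℕ := 2 * u n + 1

instance (n : ℕ) : NeZero (k n) := ⟨by unfold k; omega⟩

abbrev P (n : ℕ) := Equiv.Perm (Vt k n)
abbrev Z (n : ℕ) := ZMod (k n)

def nodeF {n : ℕ} (t : Z n) (s : Z n → Vt k (n + 1) → Vt k (n + 1)) : Vt k n → Vt k n
  | Vt.nil => Vt.nil
  | Vt.cons a v => Vt.cons (a + t) (s a v)

def node {n : ℕ} (t : Z n) (s : Z n → P (n + 1)) : P n where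
  toFun := nodeF t fun a => s a
  invFun := nodeF (-t) fun b => (s (b - t)).symm
  left_inv := by rintro (_ | ⟨a, v⟩) <;> simp [nodeF]
  right_inv := by rintro (_ | ⟨a, v⟩) <;> simp [nodeF, ← sub_eq_add_neg]

@[simp] lemma node_nil {n} (t : Z n) (s) : node t s Vt.nil = Vt.nil := rfl
@[simp] lemma node_cons {n} (t : Z n) (s) (a v) :
    node t s (Vt.cons a v) = Vt.cons (a + t) (s a v) := rfl

lemma node_mul {n} (t t' : Z n) (s s') :
    node t s * node t' s' = node (t' + t) fun a => s (a + t') * s' a := by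
  ext1 x
  rcases x with _ | ⟨a, v⟩ <;> simp [add_assoc]

lemma node_one {n} : node (0 : Z n) (fun _ => 1) = 1 := by
  ext1 x
  rcases x with _ | ⟨a, v⟩ <;> simp

lemma node_inv {n} (t : Z n) (s) : (node t s)⁻¹ = node (-t) fun b => (s (b - t))⁻¹ := by
  ext1 x
  rcases x with _ | ⟨a, v⟩ <;> rfl

lemma node_inj {n} {t t' : Z n} {s s'} (h : node t s = node t' s') : t = t' ∧ s = s' := by
  constructor
  · have := congrArg (fun g : P n => g (Vt.cons 0 Vt.nil)) h
    simp at this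
    exact this.1
  · funext a
    ext1 v
    have := congrArg (fun g : P n => g (Vt.cons a v)) h
    simp at this
    exact this.2

def n0 (n : ℕ) : (Z n → P (n + 1)) →* P n where
  toFun := node 0
  map_one' := node_one
  map_mul' s s' := by rw [node_mul]; simp; rfl

def rot (n : ℕ) : Multiplicative (Z n) →* P n where
  toFun t := node t.toAdd fun _ => 1
  map_one' := node_one
  map_mul' s s' := by rw [node_mul]; simp [add_comm]

def al (n : ℕ) : P n := node 1 fun _ => 1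

lemma al_zpow (n : ℕ) (t : ℤ) : al n ^ t = node (t : Z n) fun _ => 1 := by
  have : al n = rot n (Multiplicative.ofAdd 1) := rfl
  rw [this, ← map_zpow]
  simp [rot]

def dF : {n : ℕ} → Vt k n → Vt k n
  | _, Vt.nil => Vt.nil
  | n, Vt.cons a v => Vt.cons a (if a = 0 then dF v else if a = u n then al (n + 1) v else v)

def dI : {n : ℕ} → Vt k n → Vt k n
  | _, Vt.nil => Vt.nil
  | n, Vt.cons a v => Vt.cons a (if a = 0 then dI v else if a = u n then (al (n + 1))⁻¹ v else v)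

lemma dIF {n} (v : Vt k n) : dI (dF v) = v := by
  induction v with
  | nil => simp [dF, dI]
  | cons a v ih => simp only [dF, dI]; split_ifs <;> simp [ih]

lemma dFI {n} (v : Vt k n) : dF (dI v) = v := by
  induction v with
  | nil => simp [dF, dI]
  | cons a v ih => simp only [dF, dI]; split_ifs <;> simp [ih]

def d (n : ℕ) : P n := ⟨dF, dI, dIF, dFI⟩

def sec (n : ℕ) (a : Z n) : P (n + 1) :=
  if a = 0 then d (n + 1) else if a = u n then al (n + 1) else 1

lemma d_eq (n : ℕ) : d n = node 0 (sec n) := by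
  ext1 x
  rcases x with _ | ⟨a, v⟩
  · simp [d, dF]
  · simp only [d, Equiv.coe_fn_mk, dF, node_cons, add_zero, sec]
    split_ifs <;> rfl

def G (n : ℕ) : Subgroup (P n) := Subgroup.closure {al n, d n}

lemma al_mem (n) : al n ∈ G n := Subgroup.subset_closure (by simp)
lemma d_mem (n) : d n ∈ G n := Subgroup.subset_closure (by simp)

def Gen (n : ℕ) (g : P n) : Prop := g = al n ∨ g = (al n)⁻¹ ∨ g = d n ∨ g = (d n)⁻¹ ∨ g = 1

def W (n : ℕ) : ℕ → P n → Prop
  | 0, g => g = 1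
  | l + 1, g => ∃ a h, Gen n a ∧ W n l h ∧ g = a * h

lemma W.mul {n} : ∀ {l l' : ℕ} {g h : P n}, W n l g → W n l' h → W n (l' + l) (g * h)
  | 0, _, _, _, hg, hh => by rw [hg, one_mul]; exact hh
  | l + 1, _, _, _, ⟨a, g', ha, hg', e⟩, hh => ⟨a, _, ha, hg'.mul hh, by rw [e, mul_assoc]⟩

lemma W.gen {n} {a : P n} (ha : Gen n a) : W n 1 a := ⟨a, 1, ha, rfl, by simp⟩

lemma Gen.inv {n} {a : P n} (ha : Gen n a) : Gen n a⁻¹ := by
  rcases ha with h | h | h | h | h <;> simp [Gen, h]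

lemma W.inv {n} : ∀ {l : ℕ} {g : P n}, W n l g → W n l g⁻¹
  | 0, _, hg => by rw [hg, inv_one]; rfl
  | l + 1, _, ⟨a, g', ha, hg', e⟩ => by
    rw [e, mul_inv_rev, add_comm]
    exact hg'.inv.mul (W.gen ha.inv)

lemma W.mono {n} {l l' : ℕ} {g : P n} (h : W n l g) (hl : l ≤ l') : W n l' g := by
  induction hl with
  | refl => exact h
  | step _ ih => exact ⟨1, g, by simp [Gen], ih, by simp⟩

lemma W.mem {n} : ∀ {l : ℕ} {g : P n}, W n l g → g ∈ G n
  | 0, _, hg => by rw [hg]; exact (G n).one_mem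
  | l + 1, _, ⟨a, g', ha, hg', e⟩ => by
    rw [e]
    refine (G n).mul_mem ?_ hg'.mem
    rcases ha with h | h | h | h | h <;> simp [h, al_mem, d_mem]

lemma exists_W {n} {g : P n} (hg : g ∈ G n) : ∃ l, W n l g := by
  induction hg using Subgroup.closure_induction with
  | mem x hx =>
    refine ⟨1, W.gen ?_⟩
    rcases hx with h | h
    · exact Or.inl h
    · exact Or.inr (Or.inr (Or.inl h))
  | one => exact ⟨0, rfl⟩
  | mul x y _ _ hx hy =>
    obtain ⟨l, hl⟩ := hx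
    obtain ⟨l', hl'⟩ := hy
    exact ⟨_, hl.mul hl'⟩
  | inv x _ hx =>
    obtain ⟨l, hl⟩ := hx
    exact ⟨_, hl.inv⟩

lemma gen_dec {n} {g : P n} (hg : Gen n g) : ∃ (t : ℤ) (s : Z n → P (n + 1)), |t| ≤ 1 ∧
    g = node (t : Z n) s ∧ ∀ a, Gen (n + 1) (s a) ∧
      (a ≠ u n → s a ∈ Subgroup.zpowers (d (n + 1))) ∧
      (a ≠ 0 → s a ∈ Subgroup.zpowers (al (n + 1))) := by
  have hs : ∀ a, Gen (n + 1) (sec n a) ∧ (a ≠ u n → sec n a ∈ Subgroup.zpowers (d (n + 1))) ∧
      (a ≠ 0 → sec n a ∈ Subgroup.zpowers (al (n + 1))) := by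
    intro a
    unfold sec
    split_ifs with h1 h2 <;> simp [Gen, *]
  rcases hg with h | h | h | h | h
  · exact ⟨1, fun _ => 1, by simp, by rw [h, ← al_zpow]; simp, fun a => by simp [Gen]⟩
  · exact ⟨-1, fun _ => 1, by simp, by rw [h, ← al_zpow]; simp, fun a => by simp [Gen]⟩
  · exact ⟨0, sec n, by simp, by rw [h, d_eq]; simp, hs⟩
  · refine ⟨0, fun a => (sec n a)⁻¹, by simp, by rw [h, d_eq, node_inv]; simp, fun a => ?_⟩
    exact ⟨(hs a).1.inv, fun h => inv_mem ((hs a).2.1 h), fun h => inv_mem ((hs a).2.2 h)⟩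
  · exact ⟨0, fun _ => 1, by simp, by rw [h, ← node_one]; simp, fun a => by simp [Gen]⟩

lemma W.dec {n} : ∀ {l : ℕ} {g : P n}, W n l g → ∃ (t : ℤ) (s : Z n → P (n + 1)), |t| ≤ l ∧
    g = node (t : Z n) s ∧ ∀ a, W (n + 1) l (s a) ∧
      ((∀ r : ℤ, |r| ≤ l → a + r ≠ u n) → s a ∈ Subgroup.zpowers (d (n + 1))) ∧
      ((∀ r : ℤ, |r| ≤ l → a + r ≠ 0) → s a ∈ Subgroup.zpowers (al (n + 1)))
  | 0, _, hg => ⟨0, fun _ => 1, by simp, by rw [hg, ← node_one]; simp, fun a => by simp [W]⟩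
  | l + 1, _, ⟨b, g', hb, hg', e⟩ => by
    obtain ⟨t, s, ht, e1, hs⟩ := hg'.dec
    obtain ⟨t', s', ht', e2, hs'⟩ := gen_dec hb
    refine ⟨t + t', fun a => s' (a + t) * s a, ?_, by rw [e, e1, e2, node_mul]; simp, fun a => ?_⟩
    · have := abs_add_le t t'
      push_cast; omega
    · refine ⟨⟨_, _, (hs' _).1, (hs a).1, rfl⟩, fun h => ?_, fun h => ?_⟩
      · exact mul_mem ((hs' _).2.1 (h t (by push_cast; omega)))
          ((hs a).2.1 fun r hr => h r (by push_cast; omega))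
      · exact mul_mem ((hs' _).2.2 (h t (by push_cast; omega)))
          ((hs a).2.2 fun r hr => h r (by push_cast; omega))

lemma G_dec {n} {g : P n} (hg : g ∈ G n) : ∃ t s, g = node t s ∧ ∀ a, s a ∈ G (n + 1) := by
  obtain ⟨l, hl⟩ := exists_W hg
  obtain ⟨t, s, -, e, hs⟩ := hl.dec
  exact ⟨t, s, e, fun a => (hs a).1.mem⟩

def Dec : ℕ → (n : ℕ) → P n → Prop
  | 0, _, _ => True
  | j + 1, n, g => ∃ s, g = node 0 s ∧ ∀ a, Dec j (n + 1) (s a)

lemma Dec.comm : ∀ {j n : ℕ} {g h : P n}, g ∈ G n → h ∈ G n → Dec j n g → Dec j n h →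
    Dec (j + 1) n (g * h * g⁻¹ * h⁻¹)
  | 0, n, g, h, hg, hh, _, _ => by
    obtain ⟨t, s, e, -⟩ := G_dec hg
    obtain ⟨t', s', e', -⟩ := G_dec hh
    rw [e, e']
    simp only [node_inv, node_mul]
    exact ⟨_, by congr 1; ring, fun _ => trivial⟩
  | j + 1, n, g, h, hg, hh, ⟨s, e, hs⟩, ⟨s', e', hs'⟩ => by
    obtain ⟨t1, s1, e1, m1⟩ := G_dec hg
    obtain ⟨t2, s2, e2, m2⟩ := G_dec hh
    rw [← (node_inj (e.symm.trans e1)).2] at m1
    rw [← (node_inj (e'.symm.trans e2)).2] at m2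
    refine ⟨s * s' * s⁻¹ * s'⁻¹, ?_, fun a => Dec.comm (m1 a) (m2 a) (hs a) (hs' a)⟩
    change g * h * g⁻¹ * h⁻¹ = n0 n _
    simp only [map_mul, map_inv]
    rw [e, e']; rfl

lemma Dec.conj : ∀ {j n : ℕ} {g y : P n}, y ∈ G n → Dec j n g → Dec j n (y⁻¹ * g * y)
  | 0, _, _, _, _, _ => trivial
  | j + 1, n, g, y, hy, ⟨s, e, hs⟩ => by
    obtain ⟨t, r, e1, m⟩ := G_dec hy
    refine ⟨fun a => (r a)⁻¹ * s (a + t) * r a, ?_, fun a => Dec.conj (m a) (hs _)⟩
    rw [e, e1]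
    simp [node_inv, node_mul]

lemma window {n l : ℕ} (h : 2 * l < u n) (a : Z n) :
    (∀ r : ℤ, |r| ≤ l → a + r ≠ u n) ∨ (∀ r : ℤ, |r| ≤ l → a + r ≠ 0) := by
  by_contra c
  push Not at c
  obtain ⟨⟨r, hr, e⟩, r', hr', e'⟩ := c
  have : (((u n : ℤ) - r + r' : ℤ) : Z n) = 0 := by
    push_cast
    rw [← e]; linear_combination e'
  rw [ZMod.intCast_zmod_eq_zero_iff_dvd] at this
  have h1 := abs_le.1 hr
  have h2 := abs_le.1 hr'
  have := Int.le_of_dvd (by omega) this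
  unfold k at this
  omega

lemma commute_of : ∀ {j n l : ℕ} {g h : P n}, W n l g → W n l h → Dec (j + 1) n g →
    Dec (j + 1) n h → 2 * l < u (n + j) → Commute g h := by
  intro j
  induction j with
  | zero =>
    rintro n l g h hg hh ⟨s, e, -⟩ ⟨s', e', -⟩ hl
    obtain ⟨t1, s1, -, e1, m1⟩ := hg.dec
    obtain ⟨t2, s2, -, e2, m2⟩ := hh.dec
    rw [← (node_inj (e.symm.trans e1)).2] at m1
    rw [← (node_inj (e'.symm.trans e2)).2] at m2
    rw [e, e']
    refine Commute.map (Commute.pi fun a => ?_) (n0 n)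
    rcases window hl a with c | c
    · obtain ⟨i, hi⟩ := (m1 a).2.1 c
      obtain ⟨i', hi'⟩ := (m2 a).2.1 c
      rw [← hi, ← hi']; exact (Commute.refl _).zpow_zpow _ _
    · obtain ⟨i, hi⟩ := (m1 a).2.2 c
      obtain ⟨i', hi'⟩ := (m2 a).2.2 c
      rw [← hi, ← hi']; exact (Commute.refl _).zpow_zpow _ _
  | succ j ih =>
    rintro n l g h hg hh ⟨s, e, ds⟩ ⟨s', e', ds'⟩ hl
    obtain ⟨t1, s1, -, e1, m1⟩ := hg.dec
    obtain ⟨t2, s2, -, e2, m2⟩ := hh.dec
    rw [← (node_inj (e.symm.trans e1)).2] at m1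
    rw [← (node_inj (e'.symm.trans e2)).2] at m2
    rw [e, e']
    refine Commute.map (Commute.pi fun a => ?_) (n0 n)
    exact ih (m1 a).1 (m2 a).1 (ds a) (ds' a) (by rwa [add_assoc, add_comm 1 j])

def w : FreeGroup (Fin 2) :=
  FreeGroup.of 0 * ((FreeGroup.of 1)⁻¹ * FreeGroup.of 0 * FreeGroup.of 1) * (FreeGroup.of 0)⁻¹ *
    ((FreeGroup.of 1)⁻¹ * FreeGroup.of 0 * FreeGroup.of 1)⁻¹

lemma w_ne : w ≠ 1 := by decide

lemma iter_succ {Γ : Type} [Group Γ] (x y : Γ) (j : ℕ) : iter w x y (j + 1) =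
    iter w x y j * (y⁻¹ * iter w x y j * y) * (iter w x y j)⁻¹ * (y⁻¹ * iter w x y j * y)⁻¹ := by
  simp [iter, w]

theorem terminates (x y : G 0) : ∃ m, iter w x y m = 1 := by
  obtain ⟨l1, h1⟩ := exists_W x.2
  obtain ⟨l2, h2⟩ := exists_W y.2
  have hx := h1.mono (le_max_left l1 l2)
  have hy := h2.mono (le_max_right l1 l2)
  generalize max l1 l2 = l at hx hy
  have key : ∀ j, W 0 (8 ^ j * l) (iter w x y j).1 ∧ Dec j 0 (iter w x y j).1 := by
    intro j
    induction j with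
    | zero => exact ⟨by simpa [iter] using hx, trivial⟩
    | succ j ih =>
      rw [iter_succ]
      have c := (hy.inv.mul ih.1).mul hy
      constructor
      · refine (((ih.1.mul c).mul ih.1.inv).mul c.inv).mono ?_
        have : l ≤ 8 ^ j * l := Nat.le_mul_of_pos_left _ (by positivity)
        rw [pow_succ]; nlinarith
      · exact Dec.comm (iter w x y j).2 (y⁻¹ * iter w x y j * y).2 ih.2 (Dec.conj y.2 ih.2)
  refine ⟨l + 2, ?_⟩
  rw [iter_succ]
  obtain ⟨a, b⟩ := key (l + 1)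
  have p : l ≤ 8 ^ (l + 1) * l := Nat.le_mul_of_pos_left _ (by positivity)
  have c := ((hy.inv.mul a).mul hy).mono (l' := 3 * (8 ^ (l + 1) * l)) (by omega)
  have := commute_of (a.mono (l' := 3 * (8 ^ (l + 1) * l)) (by omega)) c b (Dec.conj y.2 b)
    (by simp only [u, zero_add, pow_succ]; nlinarith)
  apply Subtype.ext
  have e := this.eq
  simp only [Subgroup.coe_mul, Subgroup.coe_inv, Subgroup.coe_one]
  rw [e]; group

theorem d_inf : ¬ IsOfFinOrder (d 0) := by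
  rw [isOfFinOrder_iff_pow_eq_one]
  rintro ⟨N, hN, e⟩
  have step : ∀ n, d n ^ N = 1 → ∀ a, sec n a ^ N = 1 := by
    intro n h a
    rw [d_eq, ← node_one] at h
    change n0 n _ ^ N = _ at h
    rw [← map_pow] at h
    exact congrFun (node_inj h).2 a
  have all : ∀ n, d n ^ N = 1 := by
    intro n
    induction n with
    | zero => exact e
    | succ n ih => simpa [sec] using step n ih 0
  have u0 : (u N : Z N) ≠ 0 := by
    rw [Ne, ZMod.natCast_eq_zero_iff]
    intro h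
    have := Nat.le_of_dvd (by unfold u; omega) h
    unfold k at this; omega
  have := step N (all N) (u N)
  simp only [sec, u0, if_false, if_true] at this
  rw [← zpow_natCast, al_zpow] at this
  have := (node_inj (this.trans node_one.symm)).1
  rw [Int.cast_natCast, ZMod.natCast_eq_zero_iff] at this
  have := Nat.le_of_dvd hN this
  have p : 1 ≤ 8 ^ (N + 1) := Nat.one_le_pow _ _ (by norm_num)
  unfold k u at this
  nlinarith

end Pool.Agent.H.MP_019d96_al
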