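import Pool.Agent.H.MP_019d96_al.A

namespace Pool.Agent.H.MP_019d96_al

lemma tree_len {n} (v : Vt k n) : ∀ g ∈ G n, len (g v) = len v := by
  induction v with
  | nil =>
    intro g hg
    obtain ⟨t, s, rfl, -⟩ := G_dec hg
    simp
  | cons a v ih =>
    intro g hg
    obtain ⟨t, s, rfl, hs⟩ := G_dec hg
    simp [len, ih _ (hs a)]

lemma tree_pre {n} (v : Vt k n) : ∀ (x : Vt k n), ∀ g ∈ G n, Pre v x → Pre (g v) (g x) := by
  induction v with
  | nil =>
    intro x g hg _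
    obtain ⟨t, s, rfl, -⟩ := G_dec hg
    simp [Pre]
  | cons a v ih =>
    intro x g hg h
    obtain ⟨t, s, rfl, hs⟩ := G_dec hg
    rcases x with _ | ⟨b, x⟩
    · simp [Pre] at h
    · simp only [Pre] at h
      obtain ⟨rfl, h⟩ := h
      simp only [node_cons, Pre, true_and]
      exact ih x _ (hs a) h

lemma rot_mem {n} (t : Z n) : node t (fun _ => 1) ∈ G n := by
  have := (G n).zpow_mem (al_mem n) (t.val : ℤ)
  rw [al_zpow] at this
  simpa using this

lemma dsh_mem {n} (t : Z n) : n0 n (fun a => sec n (a - t)) ∈ G n := by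
  have := (G n).mul_mem ((G n).mul_mem (rot_mem t) (d_mem n)) (rot_mem (-t))
  rw [d_eq] at this
  simpa [n0, node_mul, ← sub_eq_add_neg] using this

lemma u_ne (n : ℕ) : (u n : Z n) ≠ 0 := by
  rw [Ne, ZMod.natCast_eq_zero_iff]
  intro h
  have := Nat.le_of_dvd (by unfold u; omega) h
  unfold k at this; omega

lemma u2_ne (n : ℕ) : (u n : Z n) + u n ≠ 0 := by
  rw [← Nat.cast_add, Ne, ZMod.natCast_eq_zero_iff]
  intro h
  have := Nat.le_of_dvd (by unfold u; omega) h
  unfold k at this; omega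

lemma repl {n} (a : Z n) {h : P (n + 1)} (hh : h ∈ G (n + 1)) :
    ∃ s, n0 n s ∈ G n ∧ s a = h := by
  induction hh using Subgroup.closure_induction with
  | mem x hx =>
    rcases hx with h | h
    · exact ⟨_, dsh_mem (a - (u n : Z n)), by simp [sec, u_ne, h]⟩
    · exact ⟨_, dsh_mem a, by simp [sec, Set.mem_singleton_iff.1 h]⟩
  | one => exact ⟨1, by simp, rfl⟩
  | mul x y _ _ hx hy =>
    obtain ⟨s, h1, h2⟩ := hx
    obtain ⟨s', h1', h2'⟩ := hy
    exact ⟨s * s', by rw [map_mul]; exact (G n).mul_mem h1 h1', by simp [h2, h2']⟩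
  | inv x _ hx =>
    obtain ⟨s, h1, h2⟩ := hx
    exact ⟨s⁻¹, by rw [map_inv]; exact (G n).inv_mem h1, by simp [h2]⟩

lemma trans {n} (v : Vt k n) : ∀ x : Vt k n, len v = len x → ∃ g ∈ G n, g v = x := by
  induction v with
  | nil =>
    intro x h
    rcases x with _ | ⟨b, x⟩
    · exact ⟨1, one_mem _, rfl⟩
    · simp [len] at h
  | cons a v ih =>
    intro x h
    rcases x with _ | ⟨b, x⟩
    · simp [len] at h
    · obtain ⟨g, hg, e⟩ := ih x (by simpa [len] using h)
      obtain ⟨s, h1, h2⟩ := repl a hg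
      refine ⟨_, mul_mem (rot_mem (b - a)) h1, ?_⟩
      simp [n0, h2, e]

def Cov {Γ : Type} [Group Γ] (H K : Subgroup Γ) : Prop :=
  ∃ F : Set Γ, F.Finite ∧ ∀ g ∈ K, ∃ y ∈ F, y⁻¹ * g ∈ H

lemma Cov.trans {Γ : Type} [Group Γ] {H K L : Subgroup Γ} : Cov H K → Cov K L → Cov H L := by
  rintro ⟨F, hF, h⟩ ⟨F', hF', h'⟩
  refine ⟨Set.image2 (· * ·) F' F, hF'.image2 _ hF, fun g hg => ?_⟩
  obtain ⟨y, hy, e⟩ := h' g hg
  obtain ⟨z, hz, e'⟩ := h _ e
  exact ⟨y * z, Set.mem_image2_of_mem hy hz, by simpa [mul_assoc] using e'⟩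

lemma Cov.comap {Γ Δ : Type} [Group Γ] [Group Δ] (f : Γ →* Δ) {H L : Subgroup Δ}
    {K : Subgroup Γ} (hK : ∀ x ∈ K, f x ∈ L) : Cov H L → Cov (K ⊓ H.comap f) K := by
  classical
  rintro ⟨F, hF, h⟩
  refine ⟨(fun y => if e : ∃ x ∈ K, y⁻¹ * f x ∈ H then e.choose else 1) '' F, hF.image _,
    fun g hg => ?_⟩
  obtain ⟨y, hy, e⟩ := h _ (hK g hg)
  have ex : ∃ x ∈ K, y⁻¹ * f x ∈ H := ⟨g, hg, e⟩
  refine ⟨ex.choose, ⟨y, hy, by simp only [ex, dif_pos]⟩, K.mul_mem (K.inv_mem ex.choose_spec.1) hg, ?_⟩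
  have := H.mul_mem (H.inv_mem ex.choose_spec.2) e
  simpa [mul_assoc] using this

lemma Cov.fi {Γ : Type} [Group Γ] {H K : Subgroup Γ} (hH : H ≤ K) :
    Cov H K → (H.subgroupOf K).FiniteIndex := by
  rintro ⟨F, hF, h⟩
  have : Finite (K ⧸ H.subgroupOf K) := by
    have : (Set.univ : Set (K ⧸ H.subgroupOf K)) ⊆ QuotientGroup.mk '' (Subtype.val ⁻¹' F) := by
      rintro q -
      obtain ⟨g, rfl⟩ := QuotientGroup.mk_surjective q
      obtain ⟨y, hy, e⟩ := h g g.2
      have hy' : y ∈ K := by simpa using K.mul_mem g.2 (K.inv_mem (hH e))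
      exact ⟨⟨y, hy'⟩, hy, QuotientGroup.eq.2 e⟩
    exact Set.finite_univ_iff.1
      (((hF.preimage Subtype.val_injective.injOn).image _).subset this)
  exact Subgroup.finiteIndex_of_finite_quotient

def at_ {n} (a : Z n) : P (n + 1) →* P n :=
  (n0 n).comp (MonoidHom.mulSingle (fun _ : Z n => P (n + 1)) a)

lemma at_eq {n} (a : Z n) (h : P (n + 1)) : at_ a h = n0 n (Pi.mulSingle a h) := rfl

lemma al_k (n : ℕ) : al n ^ (k n : ℤ) = 1 := by rw [al_zpow]; simp [node_one]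

lemma K_cov {n} (a : Z n) : Cov (G (n + 1) ⊓ (G n).comap (at_ a)) (G (n + 1)) := by
  set K := G (n + 1) ⊓ (G n).comap (at_ a) with hK
  have nrm : ∀ r ∈ G (n + 1), ∀ x ∈ K, r * x * r⁻¹ ∈ K := by
    intro r hr x hx
    refine ⟨(G _).mul_mem ((G _).mul_mem hr hx.1) ((G _).inv_mem hr), ?_⟩
    obtain ⟨s, h1, h2⟩ := repl a hr
    have := mul_mem (mul_mem h1 (show at_ a x ∈ G n from hx.2)) (inv_mem h1)
    rw [at_eq, ← map_mul, ← map_inv, ← map_mul] at this
    change at_ a _ ∈ G n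
    rw [at_eq]
    convert this using 2
    funext b
    by_cases e : b = a
    · subst e; simp [h2]
    · simp [e]
  have c1 : al (n + 1) * d (n + 1) * (al (n + 1))⁻¹ * (d (n + 1))⁻¹ ∈ K := by
    refine ⟨(G _).mul_mem ((G _).mul_mem ((G _).mul_mem (al_mem _) (d_mem _))
      ((G _).inv_mem (al_mem _))) ((G _).inv_mem (d_mem _)), ?_⟩
    have := mul_mem (mul_mem (mul_mem (dsh_mem (a - (u n : Z n))) (dsh_mem a))
      (inv_mem (dsh_mem (a - (u n : Z n))))) (inv_mem (dsh_mem a))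
    rw [← map_mul, ← map_inv, ← map_mul, ← map_inv, ← map_mul] at this
    change at_ a _ ∈ G n
    rw [at_eq]
    convert this using 2
    funext b
    by_cases e : b = a
    · subst e; simp [sec, u_ne]
    · have e1 : b - a ≠ 0 := sub_ne_zero.2 e
      by_cases e2 : b - a = u n
      · have e3 : b - (a - u n) = u n + u n := by rw [← e2]; ring
        simp [e, sec, e2, e3, u2_ne, u_ne]
      · simp [e, sec, e1, e2]
  have c2 : d (n + 1) ^ (k (n + 1) : ℤ) ∈ K := by
    refine ⟨(G _).zpow_mem (d_mem _) _, ?_⟩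
    have := zpow_mem (dsh_mem a) (k (n + 1) : ℤ)
    rw [← map_zpow] at this
    change at_ a _ ∈ G n
    rw [at_eq]
    convert this using 2
    funext b
    by_cases e : b = a
    · subst e; simp [sec]
    · have e1 : b - a ≠ 0 := sub_ne_zero.2 e
      simp only [ne_eq, e, not_false_eq_true, Pi.mulSingle_eq_of_ne, sec, Pi.pow_apply, e1,
        if_false]
      split_ifs
      · exact (al_k _).symm
      · simp
  have : (K.subgroupOf (G (n + 1))).Normal :=
    ⟨fun x hx r => nrm r r.2 x hx⟩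
  let π : G (n + 1) →* G (n + 1) ⧸ K.subgroupOf (G (n + 1)) := QuotientGroup.mk' _
  have hπ : ∀ r, π r = 1 ↔ (r : P (n + 1)) ∈ K := by
    intro r
    simp only [π, QuotientGroup.mk'_apply, QuotientGroup.eq_one_iff, Subgroup.mem_subgroupOf]
  let A : G (n + 1) := ⟨_, al_mem _⟩
  let D : G (n + 1) := ⟨_, d_mem _⟩
  have cm : Commute (π A) (π D) := by
    have := (hπ (A * D * A⁻¹ * D⁻¹)).2 c1
    simp only [map_mul, map_inv] at this
    exact commutatorElement_eq_one_iff_commute.1 this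
  have a1 : π A ^ (k (n + 1) : ℤ) = 1 := by
    rw [← map_zpow, hπ]
    simp only [A, SubgroupClass.coe_zpow, al_k]
    exact one_mem _
  have d1 : π D ^ (k (n + 1) : ℤ) = 1 := by
    rw [← map_zpow, hπ]; exact c2
  have nf : ∀ g (hg : g ∈ G (n + 1)), ∃ i j : ℤ, π ⟨g, hg⟩ = π A ^ i * π D ^ j := by
    intro g hg
    induction hg using Subgroup.closure_induction with
    | mem x hx =>
      rcases hx with h | h
      · exact ⟨1, 0, by simp [A, h]⟩
      · exact ⟨0, 1, by simp [D, Set.mem_singleton_iff.1 h]⟩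
    | one => exact ⟨0, 0, by rw [zpow_zero, zpow_zero, mul_one]; exact map_one π⟩
    | mul x y hx' hy' hx hy =>
      obtain ⟨i, j, e⟩ := hx
      obtain ⟨i', j', e'⟩ := hy
      refine ⟨i + i', j + j', ?_⟩
      have := map_mul π ⟨x, hx'⟩ ⟨y, hy'⟩
      rw [e, e'] at this
      refine this.trans ?_
      rw [zpow_add, zpow_add]
      exact (cm.zpow_zpow i' j).symm.mul_mul_mul_comm _ _
    | inv x hx' hx =>
      obtain ⟨i, j, e⟩ := hx
      refine ⟨-i, -j, ?_⟩
      have := map_inv π ⟨x, hx'⟩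
      rw [e] at this
      refine this.trans ?_
      rw [mul_inv_rev, ← zpow_neg, ← zpow_neg]
      exact (cm.zpow_zpow _ _).symm.eq
  have kp : (0 : ℤ) < k (n + 1) := by unfold k; omega
  refine ⟨(fun p : ℤ × ℤ => al (n + 1) ^ p.1 * d (n + 1) ^ p.2) ''
    (Set.Ico 0 (k (n + 1) : ℤ) ×ˢ Set.Ico 0 (k (n + 1) : ℤ)),
    ((Set.finite_Ico _ _).prod (Set.finite_Ico _ _)).image _, fun g hg => ?_⟩
  obtain ⟨i, j, e⟩ := nf g hg
  rw [zpow_eq_zpow_emod i a1, zpow_eq_zpow_emod j d1] at e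
  refine ⟨_, ⟨(i % k (n + 1), j % k (n + 1)), ⟨⟨Int.emod_nonneg _ kp.ne', Int.emod_lt_of_pos _ kp⟩,
    ⟨Int.emod_nonneg _ kp.ne', Int.emod_lt_of_pos _ kp⟩⟩, rfl⟩, ?_⟩
  refine (hπ ((A ^ (i % k (n + 1)) * D ^ (j % k (n + 1)))⁻¹ * ⟨g, hg⟩)).1 ?_
  rw [map_mul, map_inv, map_mul, map_zpow, map_zpow, e, inv_mul_cancel]

lemma n0_mem {n} (H : Subgroup (P n)) (s : Z n → P (n + 1)) (h : ∀ a, at_ a (s a) ∈ H) :
    n0 n s ∈ H := by
  classical
  have : ∀ T : Finset (Z n), n0 n (fun a => if a ∈ T then s a else 1) ∈ H := by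
    intro T
    induction T using Finset.induction_on with
    | empty =>
      simp only [Finset.notMem_empty, if_false]
      exact (map_one (n0 n)).symm ▸ H.one_mem
    | insert b T hb ih =>
      have := H.mul_mem (h b) ih
      rw [at_eq, ← map_mul] at this
      convert this using 2
      funext a
      by_cases e : a = b
      · subst e; simp [hb]
      · simp [e]
  simpa using this Finset.univ

lemma branch : ∀ (l n : ℕ) (H : Subgroup (P n)), Cov H (G n) → Cov (Rist H l) (G n) := by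
  intro l
  induction l with
  | zero =>
    rintro n H ⟨F, hF, h⟩
    refine ⟨F, hF, fun g hg => ?_⟩
    obtain ⟨y, hy, e⟩ := h g hg
    exact ⟨y, hy, Subgroup.subset_closure ⟨Vt.nil, rfl, e, fun x hx => absurd (by simp [Pre]) hx⟩⟩
  | succ l ih =>
    intro n H hH
    have c : ∀ a : Z n, Cov (Rist ((G (n + 1) ⊓ (G n).comap (at_ a)) ⊓ H.comap (at_ a)) l)
        (G (n + 1)) :=
      fun a => ih _ _ ((Cov.comap (K := G (n + 1) ⊓ (G n).comap (at_ a)) (at_ a)
        (fun x hx => (Subgroup.mem_inf.1 hx).2) hH).trans (K_cov a))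
    have m : ∀ a : Z n, ∀ r ∈ Rist ((G (n + 1) ⊓ (G n).comap (at_ a)) ⊓ H.comap (at_ a)) l,
        at_ a r ∈ Rist H (l + 1) := by
      intro a r hr
      induction hr using Subgroup.closure_induction with
      | mem x hx =>
        obtain ⟨v, hv, hx, hx'⟩ := hx
        refine Subgroup.subset_closure ⟨Vt.cons a v, by simp [len, hv], hx.2, fun y hy => ?_⟩
        rcases y with _ | ⟨b, y⟩
        · rfl
        · by_cases e : b = a
          · subst e
            have := hx' y (by simpa [Pre] using hy)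
            simp [at_eq, n0, this]
          · simp [at_eq, n0, e]
      | one => simp
      | mul x y _ _ hx hy => rw [map_mul]; exact mul_mem hx hy
      | inv x _ hx => rw [map_inv]; exact inv_mem hx
    choose F hF h using c
    refine ⟨(fun p : Z n × (Z n → P (n + 1)) => node p.1 p.2) '' (Set.univ ×ˢ Set.univ.pi F),
      (Set.finite_univ.prod (Set.Finite.pi hF)).image _, fun g hg => ?_⟩
    obtain ⟨t, s, rfl, hs⟩ := G_dec hg
    choose y hy e using fun a => h a (s a) (hs a)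
    refine ⟨node t y, ⟨(t, y), ⟨trivial, fun a _ => hy a⟩, rfl⟩, ?_⟩
    have := n0_mem _ _ fun a => m a _ (e a)
    simpa [n0, node_inv, node_mul] using this

theorem isBranch : IsBranch (G 0) := by
  refine ⟨fun g hg => ⟨fun v => tree_len v g hg, fun v x => tree_pre v x g hg⟩, trans,
    fun l => Cov.fi ?_ (branch l 0 _ ⟨{1}, Set.finite_singleton _, fun g hg => ⟨1, rfl, by simpa⟩⟩)⟩
  refine (Subgroup.closure_le _).2 ?_
  rintro g ⟨v, -, hg, -⟩
  exact hg

end Pool.Agent.H.MP_019d96_al
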