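import Mathlib

namespace Pool.Agent.H.MP_019d96_al

/-- Vertices of the spherically homogeneous rooted tree whose level `n, n+1, ..` vertices have
`k n, k (n+1), ..` children: finite words with `i`-th letter in `ZMod (k (n+i))`. -/
inductive Vt (k : ℕ → ℕ) : ℕ → Type
  | nil {n : ℕ} : Vt k n
  | cons {n : ℕ} (a : ZMod (k n)) (v : Vt k (n + 1)) : Vt k n

/-- Level of a vertex. -/
def len {k : ℕ → ℕ} : {n : ℕ} → Vt k n → ℕ
  | _, Vt.nil => 0
  | _, Vt.cons _ v => len v + 1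

/-- `Pre v u`: the word `v` is a prefix of `u`, so `u` is in the subtree rooted at `v`. -/
def Pre {k : ℕ → ℕ} : {n : ℕ} → Vt k n → Vt k n → Prop
  | _, Vt.nil, _ => True
  | _, Vt.cons _ _, Vt.nil => False
  | _, Vt.cons a v, Vt.cons b w => a = b ∧ Pre v w

/-- Rigid vertex stabiliser. -/
def rist {k : ℕ → ℕ} {n : ℕ} (G : Subgroup (Equiv.Perm (Vt k n))) (v : Vt k n) :
    Set (Equiv.Perm (Vt k n)) :=
  {g | g ∈ G ∧ ∀ u, ¬ Pre v u → g u = u}

/-- Rigid level stabiliser. -/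
def Rist {k : ℕ → ℕ} {n : ℕ} (G : Subgroup (Equiv.Perm (Vt k n))) (l : ℕ) :
    Subgroup (Equiv.Perm (Vt k n)) :=
  Subgroup.closure {g | ∃ v, len v = l ∧ g ∈ rist G v}

/-- `G` is a branch group of tree automorphisms. -/
def IsBranch {k : ℕ → ℕ} (G : Subgroup (Equiv.Perm (Vt k 0))) : Prop :=
  (∀ g ∈ G, (∀ v, len (g v) = len v) ∧ ∀ v u, Pre v u → Pre (g v) (g u)) ∧
  (∀ v u, len v = len u → ∃ g ∈ G, g v = u) ∧
  ∀ l, ((Rist G l).subgroupOf G).FiniteIndex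

/-- The iterates `e_0 = x`, `e_(j+1) = w (e_j, y)`. -/
def iter {Γ : Type} [Group Γ] (w : FreeGroup (Fin 2)) (x y : Γ) : ℕ → Γ
  | 0 => x
  | j + 1 => FreeGroup.lift ![iter w x y j, y] w

end Pool.Agent.H.MP_019d96_al
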